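import Pool.Agent.H.MP_e52733_co.C

set_option autoImplicit false

namespace Pool.Agent.Results.MP_e52733_co.Asymp

open Pool.Agent.H.MP_e52733_co Filter Topology

theorem result :
    (∀ n : ℕ, BddAbove (vals n) ∧ 2 ^ n ≤ (n + 1) ^ f n) ∧
      Tendsto (fun n : ℕ => (f n : ℝ) / (n / Real.logb 2 n)) atTop (𝓝 1) := by
  refine ⟨fun n => ⟨bdd n, f_ge n⟩, ?_⟩
  have hl : Tendsto (fun r : ℕ => Real.log (r : ℝ)) atTop atTop :=
    Real.tendsto_log_atTop.comp tendsto_natCast_atTop_atTop
  have hl2 := Real.log_two_gt_d9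
  have hl2' := Real.log_two_lt_d9
  rw [tendsto_order]
  constructor
  · intro a ha
    filter_upwards [eventually_ge_atTop 1, hl.eventually_gt_atTop 1,
      hl.eventually_gt_atTop (1 / (1 - a))] with n hn hx1 hx2
    have hn' : (1 : ℝ) ≤ n := by exact_mod_cast hn
    have h1 : (2 : ℝ) ^ n ≤ (n + 1) ^ f n := by exact_mod_cast f_ge n
    have h2 := Real.log_le_log (by positivity) h1
    rw [Real.log_pow, Real.log_pow] at h2
    have h4 : Real.log ((n : ℝ) + 1) ≤ Real.log n + 1 := by
      have a1 : Real.log ((n : ℝ) + 1) ≤ Real.log (n * 2) :=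
        Real.log_le_log (by linarith) (by linarith)
      rw [Real.log_mul (by linarith) (by norm_num)] at a1
      linarith
    set x := Real.log n with hx
    have h5 := mul_le_mul_of_nonneg_left h4 (Nat.cast_nonneg (α := ℝ) (f n))
    have e : (f n : ℝ) / (n / Real.logb 2 n) = f n * x / (n * Real.log 2) := by
      rw [Real.logb, ← hx]; field_simp
    have hp : 0 < n * Real.log 2 := by positivity
    rw [e, lt_div_iff₀ hp]
    rw [div_lt_iff₀ (by linarith)] at hx2
    have h6 : a * (x + 1) < x := by nlinarith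
    have h7 := mul_lt_mul_of_pos_right h6 hp
    have h8 := mul_le_mul_of_nonneg_left (h2.trans h5) (by linarith : 0 ≤ x)
    have h9 : (x + 1) * (a * (n * Real.log 2)) < (x + 1) * (f n * x) := by linarith
    exact lt_of_mul_lt_mul_left h9 (by linarith)
  · intro a ha
    set γ := min (1 / 4) ((a - 1) / 6) with hγ
    have h0 : 0 < γ := lt_min (by norm_num) (by linarith)
    have h1 : γ ≤ 1 / 4 := min_le_left _ _
    have h2 : γ ≤ (a - 1) / 6 := min_le_right _ _
    filter_upwards [eventually_ge_atTop 1, hl.eventually_ge_atTop 2,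
      hl.eventually_ge_atTop (1 / γ), hl.eventually_ge_atTop (1440 / γ ^ 5)] with n hn hx1 hx2 hx3
    have hn' : (1 : ℝ) ≤ n := by exact_mod_cast hn
    have key := f_upper h0 h1 hn rfl hx1 hx2
    set x := Real.log n with hx
    have e : (f n : ℝ) / (n / Real.logb 2 n) = f n * x / (n * Real.log 2) := by
      rw [Real.logb, ← hx]; field_simp
    have hp : 0 < n * Real.log 2 := by positivity
    rw [e, div_lt_iff₀ hp]
    have hx0 : 0 < x := by linarith
    have a1 : n * Real.log 2 / ((1 - 2 * γ) * x) * x ≤ (1 + 4 * γ) * (n * Real.log 2) := by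
      have : n * Real.log 2 / ((1 - 2 * γ) * x) * x = 1 / (1 - 2 * γ) * (n * Real.log 2) := by
        have : 0 < 1 - 2 * γ := by linarith
        field_simp
      rw [this]
      apply mul_le_mul_of_nonneg_right _ hp.le
      rw [div_le_iff₀ (by linarith)]; nlinarith
    have a2 : 30 * x ^ 2 * Real.exp ((1 - γ) * x) * x ≤ γ * (n * Real.log 2) := by
      have b1 : (n : ℝ) = Real.exp ((1 - γ) * x) * Real.exp (γ * x) := by
        rw [← Real.exp_add, show (1 - γ) * x + γ * x = x by ring, hx, Real.exp_log (by linarith)]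
      have b2 := Real.pow_div_factorial_le_exp (γ * x) (by positivity) 4
      have b3 : (γ * x) ^ 4 / (Nat.factorial 4 : ℕ) = γ ^ 4 * x ^ 4 / 24 := by
        simp [Nat.factorial]; ring
      rw [div_le_iff₀ (by positivity)] at hx3
      have b4 := mul_le_mul_of_nonneg_right hx3 (by positivity : 0 ≤ x ^ 3)
      have b5 := mul_le_mul_of_nonneg_left b2 h0.le
      have b6 : 60 * x ^ 3 ≤ γ * Real.exp (γ * x) := by rw [b3] at b5; linarith
      have b7 := mul_le_mul_of_nonneg_left (by linarith : 1 / 2 ≤ Real.log 2)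
        (by positivity : 0 ≤ γ * n)
      have b8 := mul_le_mul_of_nonneg_left b6 (Real.exp_pos ((1 - γ) * x)).le
      have b9 : γ * n = Real.exp ((1 - γ) * x) * (γ * Real.exp (γ * x)) := by rw [b1]; ring
      linarith
    have a3 := mul_le_mul_of_nonneg_right key hx0.le
    have a4 := mul_lt_mul_of_pos_right (by linarith : 1 + 5 * γ < a) hp
    linarith

end Pool.Agent.Results.MP_e52733_co.Asymp
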